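import Mathlib

/-!
# Graphs all of whose total dominating sets are ODPU-sets

These are exactly the complete graphs. If `G` is connected and not complete, choose `u` and `v` at
distance `r ≥ 2`, where `r` is the eccentricity of `u`. The set `M` of all vertices that are not at
distance `r` from `u` is total dominating, `r` is not in the open distance pattern of `u`, but it
is in the pattern of `v`, because of `u`.
-/

set_option autoImplicit false

namespace Pool.Agent.Results.MP_10a600_co.ExactlyCompleteGraphs

variable {V : Type*}

/-- The open `M`-distance pattern of `u`: the distances from `u` to the elements of `M` other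
than `u`. -/
def pattern (G : SimpleGraph V) (M : Set V) (u : V) : Set ℕ :=
  {k | ∃ v ∈ M, v ≠ u ∧ G.dist u v = k}

/-- `M` is an open distance pattern uniform set: it is nonempty and all vertices have the same
open distance pattern. -/
def IsODPU (G : SimpleGraph V) (M : Set V) : Prop :=
  M.Nonempty ∧ ∀ u w : V, pattern G M u = pattern G M w

/-- `S` is a total dominating set: every vertex has a neighbour in `S`. -/
def TotalDominating (G : SimpleGraph V) (S : Set V) : Prop :=
  ∀ v : V, ∃ u ∈ S, G.Adj v u

/-- A finite connected simple graph has the property that every total dominating set is an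
ODPU-set if and only if it is complete. -/
theorem result {V : Type*} [Finite V] (G : SimpleGraph V) (hG : G.Connected) :
    (∀ S : Set V, TotalDominating G S → IsODPU G S) ↔ ∀ u v : V, u ≠ v → G.Adj u v := by
  constructor
  · intro h
    by_contra hcon
    push Not at hcon
    obtain ⟨u, w, huw, hadj⟩ := hcon
    haveI : Nonempty V := ⟨u⟩
    obtain ⟨v, hv⟩ := Finite.exists_max (fun v => G.dist u v)
    have h0 : G.dist u w ≠ 0 := by
      rw [ne_eq, hG.dist_eq_zero_iff]
      exact huw
    have h1 : G.dist u w ≠ 1 := by
      rw [ne_eq, SimpleGraph.dist_eq_one_iff_adj]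
      exact hadj
    have hr : 2 ≤ G.dist u v := by
      have := hv w
      omega
    have hM : TotalDominating G {x | G.dist u x ≠ G.dist u v} := by
      intro x
      by_cases hx : x = u
      · subst hx
        obtain ⟨p, hp⟩ := (hG x v).exists_walk_length_eq_dist
        cases p with
        | nil =>
          simp at hr
        | cons hadj' q =>
          refine ⟨_, ?_, hadj'⟩
          have := SimpleGraph.dist_eq_one_iff_adj.2 hadj'
          simp only [ne_eq, Set.mem_ofPred_eq]
          omega
      · obtain ⟨p, hp⟩ := (hG x u).exists_walk_length_eq_dist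
        cases p with
        | nil => exact absurd rfl hx
        | @cons _ y _ hadj' q =>
          refine ⟨y, ?_, hadj'⟩
          have h2 : G.dist y u ≤ q.length := SimpleGraph.dist_le q
          rw [SimpleGraph.Walk.length_cons] at hp
          have h3 := hv x
          rw [SimpleGraph.dist_comm] at hp h2
          simp only [ne_eq, Set.mem_ofPred_eq]
          omega
    have hO := h _ hM
    have hpat := hO.2 v u
    have hv1 : G.dist u v ∈ pattern G {x | G.dist u x ≠ G.dist u v} v := by
      refine ⟨u, ?_, ?_, SimpleGraph.dist_comm⟩
      · simp only [ne_eq, Set.mem_ofPred_eq, SimpleGraph.dist_self]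
        omega
      · rintro rfl
        simp at hr
    rw [hpat] at hv1
    obtain ⟨x, hx, -, hx2⟩ := hv1
    exact hx hx2
  · intro h S hS
    have hd : ∀ u v : V, v ≠ u → G.dist u v = 1 := fun u v huv =>
      SimpleGraph.dist_eq_one_iff_adj.2 (h u v huv.symm)
    have hpat : ∀ u : V, pattern G S u = {1} := by
      intro u
      ext k
      simp only [pattern, Set.mem_ofPred_eq, Set.mem_singleton_iff]
      constructor
      · rintro ⟨v, -, hvu, rfl⟩
        exact hd u v hvu
      · rintro rfl
        obtain ⟨v, hv, huv⟩ := hS u
        exact ⟨v, hv, huv.ne', hd u v huv.ne'⟩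
    obtain ⟨u⟩ := hG.nonempty
    obtain ⟨v, hv, -⟩ := hS u
    exact ⟨⟨v, hv⟩, fun u w => by rw [hpat, hpat]⟩

end Pool.Agent.Results.MP_10a600_co.ExactlyCompleteGraphs
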